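import Pool.Agent.Lib.MP_2c1b2b_gt.H5.ZonoidAbs

/-!
# MP_2c1b2b_gt: every zonoid in `ℝⁿ` is approximated by a sum of `C n / ε ^ 2` segments

The factor `log n` in Talagrand's bound is not necessary.
-/

set_option autoImplicit false

open scoped Pointwise ENNReal

namespace Pool.Agent.Results.MP_2c1b2b_gt.LinearSize

/-- The Euclidean space `ℝⁿ`. -/
abbrev E (n : ℕ) : Type := EuclideanSpace ℝ (Fin n)

/-- The zonotope `[-v₁, v₁] + ... + [-v_M, v_M]`, a sum of `M` segments. -/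
def zonotope {n M : ℕ} (v : Fin M → E n) : Set (E n) := ∑ i, segment ℝ (-v i) (v i)

/-- Origin-symmetric convex bodies. -/
def IsSymmBody {n : ℕ} (K : Set (E n)) : Prop :=
  IsCompact K ∧ Convex ℝ K ∧ (interior K).Nonempty ∧ ∀ x ∈ K, -x ∈ K

/-- (Origin-symmetric) zonoids: convex bodies which are limits, in the Hausdorff metric, of
translates of zonotopes. -/
def IsZonoid {n : ℕ} (K : Set (E n)) : Prop :=
  IsSymmBody K ∧ ∀ δ : ℝ, 0 < δ → ∃ (M : ℕ) (v : Fin M → E n) (a : E n),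
    Metric.hausdorffDist K ((fun z => a + z) '' zonotope v) < δ

/-- The Banach-Mazur distance `d(K, L) = inf {λ ≥ 1 : ∃ T ∈ GL(n), L ⊆ T K ⊆ λ L}` (the value is
`∞` if there is no such `λ`). -/
noncomputable def bmDist {n : ℕ} (K L : Set (E n)) : ℝ≥0∞ :=
  ⨅ (lam : ℝ) (_ : 1 ≤ lam ∧ ∃ T : E n ≃ₗ[ℝ] E n, L ⊆ T '' K ∧ T '' K ⊆ lam • L),
    ENNReal.ofReal lam

/-- `N(K, ε)`: the least `M` such that some sum `Z` of `M` segments satisfies
`d(Z, K) ≤ 1 + ε` (the value is `∞` if there is no such `M`). -/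
noncomputable def segNumber {n : ℕ} (K : Set (E n)) (ε : ℝ) : ℕ∞ :=
  ⨅ (M : ℕ) (_ : ∃ v : Fin M → E n, bmDist (zonotope v) K ≤ ENNReal.ofReal (1 + ε)), (M : ℕ∞)

/-- There is an absolute constant `C` such that for all `n`, all zonoids `K ⊆ ℝⁿ` and all
`0 < ε ≤ 1`: `n ≤ N(K, ε) ≤ C n / ε²`; the zonotope can be taken in the same position, that is
`K ⊆ Z ⊆ (1 + ε) K`. -/
theorem result :
    ∃ C : ℝ, 0 < C ∧ ∀ ε : ℝ, 0 < ε → ε ≤ 1 → ∀ (n : ℕ) (K : Set (E n)), IsZonoid K →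
      (n : ℕ∞) ≤ segNumber K ε ∧
      (segNumber K ε : ℝ≥0∞) ≤ ENNReal.ofReal (C * n / ε ^ 2) ∧
      ∃ (M : ℕ) (v : Fin M → E n), (M : ℝ) ≤ C * n / ε ^ 2 ∧
        K ⊆ zonotope v ∧ zonotope v ⊆ (1 + ε) • K := by
  obtain ⟨C₁, hC₁, hS⟩ := Pool.Agent.Lib.MP_2c1b2b_gt.H5S.sparse_abs
  refine ⟨64 * C₁, by positivity, ?_⟩
  intro ε hε hε1 n K hZ
  obtain ⟨⟨hK, hconv, hint, hsymm⟩, hlim⟩ := hZ
  have hne : K.Nonempty := hint.mono interior_subset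
  -- the approximation
  have hlim' : ∀ δ : ℝ, 0 < δ → ∃ m : ℕ, ∃ v : Fin m → E n,
      Metric.hausdorffDist K (Pool.Agent.Lib.MP_2c1b2b_gt.H33.Zt v) < δ := by
    intro δ hδ
    obtain ⟨m, v, a, h⟩ := hlim (δ / 3) (by positivity)
    refine ⟨m, v, ?_⟩
    have h1 := Pool.Agent.Lib.MP_2c1b2b_gt.H5S.centre hK hne hsymm (by positivity) v a h
    linarith
  have hmain : ∃ (M : ℕ) (v : Fin M → E n), (M : ℝ) ≤ 64 * C₁ * n / ε ^ 2 ∧
      K ⊆ zonotope v ∧ zonotope v ⊆ (1 + ε) • K := by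
    obtain ⟨m, hm, v, h1, h2⟩ := Pool.Agent.Lib.MP_2c1b2b_gt.H5S.core (ε := ε) (e := ε / 8)
      (A := C₁ / (ε / 8) ^ 2) hε (by positivity) (by linarith) (by linarith)
      (fun n N v => hS (ε / 8) (by positivity) (by linarith) n N v) n K hK hint hlim'
    refine ⟨m, v, hm.trans (le_of_eq ?_), h1, h2⟩
    field_simp
    ring
  refine ⟨?_, ?_, hmain⟩
  · -- the lower bound
    refine le_iInf fun M => le_iInf fun hM => ?_
    obtain ⟨v, hv⟩ := hM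
    have h1 : bmDist (zonotope v) K < ⊤ := lt_of_le_of_lt hv ENNReal.ofReal_lt_top
    rw [bmDist, iInf_lt_top] at h1
    obtain ⟨lam, h1⟩ := h1
    rw [iInf_lt_top] at h1
    obtain ⟨⟨-, T, hT, -⟩, -⟩ := h1
    exact_mod_cast Pool.Agent.Lib.MP_2c1b2b_gt.H5S.card_le hint v T hT
  · -- the upper bound
    obtain ⟨M, v, hM, h1, h2⟩ := hmain
    have h3 : bmDist (zonotope v) K ≤ ENNReal.ofReal (1 + ε) := by
      refine iInf_le_of_le (1 + ε) (iInf_le_of_le ⟨by linarith, LinearEquiv.refl ℝ _, ?_, ?_⟩ le_rfl)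
      · intro x hx
        exact ⟨x, h1 hx, rfl⟩
      · rintro _ ⟨x, hx, rfl⟩
        exact h2 hx
    have h4 : segNumber K ε ≤ (M : ℕ∞) := iInf_le_of_le M (iInf_le_of_le ⟨v, h3⟩ le_rfl)
    calc (segNumber K ε : ℝ≥0∞) ≤ ((M : ℕ∞) : ℝ≥0∞) := by exact_mod_cast h4
      _ = ENNReal.ofReal (M : ℝ) := by simp
      _ ≤ ENNReal.ofReal (64 * C₁ * n / ε ^ 2) := ENNReal.ofReal_le_ofReal hM

end Pool.Agent.Results.MP_2c1b2b_gt.LinearSize
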